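import Pool.Agent.Lib_MP_1858fb_w.Defs

/-! MP_1858fb_ag: tuples of binary forms as polynomials; passage from power series with polynomial
coefficients to polynomials with power series coefficients. -/

namespace Pool.Agent.VF.D61

open MvPolynomial

section tools

variable {k : Type} [Field k]

/-- a form of degree `e` at a scaled point -/
theorem aeval_scale {σ : Type} {S : Type*} [CommRing S] [Algebra k S] {E : MvPolynomial σ k} {e : ℕ}
    (hE : E.IsHomogeneous e) (c : S) (x : σ → S) :
    aeval (fun i => c * x i) E = c ^ e * aeval x E := by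
  rw [aeval_def, aeval_def, eval₂_eq, eval₂_eq, Finset.mul_sum]
  refine Finset.sum_congr rfl fun s hs => ?_
  have hse : s.degree = e := by
    have := hE (mem_support_iff.mp hs)
    rw [Finsupp.degree_eq_weight_one]
    exact this
  have h1 : ∏ i ∈ s.support, (c * x i) ^ s i = c ^ e * ∏ i ∈ s.support, x i ^ s i := by
    simp only [mul_pow, Finset.prod_mul_distrib]
    rw [Finset.prod_pow_eq_pow_sum, ← hse]
    rfl
  rw [h1]
  ring

/-- Coefficient of a product in the maximal degree. -/
theorem coeff_prod_sum {ι : Type*} {A : Type*} [CommRing A] (s : Finset ι) (n : ι → ℕ)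
    (f : ι → Polynomial A) (h : ∀ i ∈ s, (f i).natDegree ≤ n i) :
    (∏ i ∈ s, f i).coeff (∑ i ∈ s, n i) = ∏ i ∈ s, (f i).coeff (n i) := by
  classical
  induction s using Finset.induction_on with
  | empty => simp
  | insert a s ha ih =>
    rw [Finset.prod_insert ha, Finset.sum_insert ha, Finset.prod_insert ha,
      Polynomial.coeff_mul_add_eq_of_natDegree_le (h a (Finset.mem_insert_self a s)),
      ih fun i hi => h i (Finset.mem_insert_of_mem hi)]
    exact (Polynomial.natDegree_prod_le _ _).trans
      (Finset.sum_le_sum fun i hi => h i (Finset.mem_insert_of_mem hi))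

/-- Coefficient of the value of a form in the maximal degree. -/
theorem coeff_aeval_top {σ : Type} {d e : ℕ} {F : σ → Polynomial k}
    (hF : ∀ i, (F i).natDegree ≤ d) {E : MvPolynomial σ k} (hE : E.IsHomogeneous e) :
    (aeval F E).coeff (d * e) = aeval (fun i => (F i).coeff d) E := by
  rw [aeval_def, aeval_def, eval₂_eq, eval₂_eq, Polynomial.finsetSum_coeff]
  refine Finset.sum_congr rfl fun s hs => ?_
  have hse : s.degree = e := by
    have := hE (mem_support_iff.mp hs)
    rw [Finsupp.degree_eq_weight_one]
    exact this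
  rw [Polynomial.algebraMap_eq, Polynomial.coeff_C_mul]
  congr 1
  have h1 : d * e = ∑ i ∈ s.support, s i * d := by
    rw [← Finset.sum_mul, ← hse, Finsupp.degree_apply, mul_comm]
  rw [h1, coeff_prod_sum]
  · refine Finset.prod_congr rfl fun i _ => ?_
    exact Polynomial.coeff_pow_of_natDegree_le (hF i)
  · intro i _
    exact Polynomial.natDegree_pow_le.trans (Nat.mul_le_mul_left _ (hF i))

end tools

section toPoly

variable {R : Type} [CommRing R]

/-- The tuple of binary forms `F` as a tuple of polynomials in `X = q / p`. -/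
noncomputable def toPoly {κ : Type} {d : ℕ} (F : Fin (d + 1) → κ → R) (i : κ) : Polynomial R :=
  ∑ j : Fin (d + 1), Polynomial.C (F j i) * Polynomial.X ^ (j : ℕ)

variable {κ : Type} {d : ℕ} (F : Fin (d + 1) → κ → R)

theorem coeff_toPoly (i : κ) (n : ℕ) :
    (toPoly F i).coeff n = if h : n < d + 1 then F ⟨n, h⟩ i else 0 := by
  rw [toPoly, Polynomial.finsetSum_coeff]
  simp only [Polynomial.coeff_C_mul, Polynomial.coeff_X_pow]
  by_cases h : n < d + 1
  · rw [dif_pos h, Finset.sum_eq_single (⟨n, h⟩ : Fin (d + 1))]
    · simp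
    · intro j _ hj
      rw [if_neg, mul_zero]
      intro h1
      exact hj (Fin.ext h1.symm)
    · intro h1
      exact absurd (Finset.mem_univ _) h1
  · rw [dif_neg h]
    refine Finset.sum_eq_zero fun j _ => ?_
    rw [if_neg, mul_zero]
    intro h1
    exact h (h1 ▸ j.2)

theorem coeff_toPoly_fin (i : κ) (j : Fin (d + 1)) : (toPoly F i).coeff (j : ℕ) = F j i := by
  rw [coeff_toPoly, dif_pos j.2]

theorem natDegree_toPoly_le (i : κ) : (toPoly F i).natDegree ≤ d := by
  rw [Polynomial.natDegree_le_iff_coeff_eq_zero]
  intro n hn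
  rw [coeff_toPoly, dif_neg (by omega)]

theorem eval_toPoly (i : κ) (a : R) : (toPoly F i).eval a = val F 1 a i := by
  rw [toPoly, Polynomial.eval_finsetSum, val]
  refine Finset.sum_congr rfl fun j _ => ?_
  simp

theorem val_zero_one (i : κ) : val F 0 1 i = F (Fin.last d) i := by
  rw [val, Finset.sum_eq_single (Fin.last d)]
  · simp
  · intro j _ hj
    have : (j : ℕ) < d := by
      have h1 := j.2
      rcases Nat.lt_or_ge (j : ℕ) d with h2 | h2
      · exact h2
      · exact absurd (Fin.ext (by simp only [Fin.val_last]; omega)) hj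
    rw [zero_pow (by omega), zero_mul, mul_zero]
  · intro h
    exact absurd (Finset.mem_univ _) h

theorem val_one_zero (i : κ) : val F 1 0 i = F 0 i := by
  rw [val, Finset.sum_eq_single 0]
  · simp
  · intro j _ hj
    have : (j : ℕ) ≠ 0 := fun h => hj (Fin.ext h)
    rw [zero_pow this, mul_zero, mul_zero]
  · intro h
    exact absurd (Finset.mem_univ _) h

variable {k : Type} [Field k] [Algebra k R]

/-- evaluation of the polynomial identities -/
theorem eval_aeval {σ : Type} (G : σ → Polynomial R) (E : MvPolynomial σ k) (a : R) :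
    (aeval G E).eval a = aeval (fun i => (G i).eval a) E := by
  induction E using MvPolynomial.induction_on with
  | C b =>
    rw [MvPolynomial.aeval_C, MvPolynomial.aeval_C, Polynomial.algebraMap_apply,
      Polynomial.eval_C]
  | add p q hp hq => rw [map_add, map_add, Polynomial.eval_add, hp, hq]
  | mul_X p i hp => rw [map_mul, map_mul, Polynomial.eval_mul, hp, aeval_X, aeval_X]

/-- from the affine to the homogeneous identity -/
theorem aeval_val_eq_zero {E : MvPolynomial κ k} {e : ℕ} (hE : E.IsHomogeneous e)
    (h : aeval (toPoly F) E = 0) (p q : R) : aeval (val F p q) E = 0 := by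
  classical
  let T : LaurentPolynomial R := LaurentPolynomial.T 1
  let T' : LaurentPolynomial R := LaurentPolynomial.T (-1)
  have hTT : T * T' = 1 := by
    rw [← LaurentPolynomial.T_add]
    simp
  let ι : Polynomial R →ₐ[R] LaurentPolynomial R :=
    Polynomial.aeval (algebraMap R (LaurentPolynomial R) q * T')
  let x : κ → LaurentPolynomial R := fun i => ι (toPoly F i)
  have h1 : aeval x E = 0 := by
    have h2 : aeval x E = ι (aeval (toPoly F) E) := by
      have := MvPolynomial.comp_aeval_apply (φ := (ι.restrictScalars k)) (toPoly F) E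
      exact this.symm
    rw [h2, h, map_zero]
  have h3 : aeval (fun i => T ^ d * x i) E = 0 := by
    rw [aeval_scale hE, h1, mul_zero]
  let y : κ → Polynomial R := fun i =>
    ∑ j : Fin (d + 1), Polynomial.C (F j i * q ^ (j : ℕ)) * Polynomial.X ^ (d - (j : ℕ))
  have h4 : ∀ i, T ^ d * x i = Polynomial.toLaurentAlg (R := R) (y i) := by
    intro i
    simp only [x, y, ι, toPoly, map_sum, map_mul, map_pow, Finset.mul_sum]
    refine Finset.sum_congr rfl fun j _ => ?_
    have hj : (j : ℕ) ≤ d := by have := j.2; omega
    have h5 : T ^ d * T' ^ (j : ℕ) = T ^ (d - (j : ℕ)) := by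
      have : T ^ d = T ^ (d - (j : ℕ)) * T ^ (j : ℕ) := by rw [← pow_add]; congr 1; omega
      rw [this, mul_assoc, ← mul_pow, hTT, one_pow, mul_one]
    have h6 : Polynomial.toLaurentAlg (R := R) (Polynomial.X) = T := by
      simp [T]
    rw [h6, Polynomial.aeval_C, Polynomial.aeval_X, mul_pow]
    have h7 : ∀ r : R, Polynomial.toLaurentAlg (R := R) (Polynomial.C r) =
        algebraMap R (LaurentPolynomial R) r := by
      intro r
      exact (Polynomial.toLaurentAlg (R := R)).commutes r
    rw [h7, h7]
    calc T ^ d * (algebraMap R (LaurentPolynomial R) (F j i) *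
          (algebraMap R (LaurentPolynomial R) q ^ (j : ℕ) * T' ^ (j : ℕ))) =
          algebraMap R (LaurentPolynomial R) (F j i) *
          algebraMap R (LaurentPolynomial R) q ^ (j : ℕ) * (T ^ d * T' ^ (j : ℕ)) := by ring
      _ = _ := by rw [h5]
  have h8 : aeval y E = 0 := by
    apply Polynomial.toLaurent_injective
    have h9 : Polynomial.toLaurentAlg (R := R) (aeval y E) =
        aeval (fun i => Polynomial.toLaurentAlg (R := R) (y i)) E := by
      exact MvPolynomial.comp_aeval_apply
        (φ := ((Polynomial.toLaurentAlg (R := R)).restrictScalars k)) y E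
    have h10 : Polynomial.toLaurent (aeval y E) = Polynomial.toLaurentAlg (R := R) (aeval y E) := rfl
    rw [h10, h9, map_zero]
    rw [show (fun i => Polynomial.toLaurentAlg (R := R) (y i)) = fun i => T ^ d * x i from
      funext fun i => (h4 i).symm]
    exact h3
  have h11 : val F p q = fun i => (y i).eval p := by
    funext i
    simp only [y, val, Polynomial.eval_finsetSum, Polynomial.eval_mul, Polynomial.eval_C,
      Polynomial.eval_pow, Polynomial.eval_X]
    refine Finset.sum_congr rfl fun j _ => by ring
  rw [h11, ← eval_aeval, h8, Polynomial.eval_zero]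

end toPoly

section series

variable {k : Type} [Field k] {σ : Type}

/-- Polynomials with power series coefficients are power series with polynomial coefficients. -/
noncomputable def iot (k σ : Type) [Field k] :
    Polynomial (MvPowerSeries σ k) →+* MvPowerSeries σ (Polynomial k) :=
  Polynomial.eval₂RingHom (MvPowerSeries.map (Polynomial.C : k →+* Polynomial k))
    (MvPowerSeries.C (Polynomial.X : Polynomial k))

theorem coeff_coeff_iot (h : Polynomial (MvPowerSeries σ k)) (μ : σ →₀ ℕ) (j : ℕ) :
    (MvPowerSeries.coeff μ (iot k σ h)).coeff j = MvPowerSeries.coeff μ (h.coeff j) := by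
  induction h using Polynomial.induction_on' with
  | add p q hp hq => rw [map_add, map_add, Polynomial.coeff_add, hp, hq, Polynomial.coeff_add,
      map_add]
  | monomial n a =>
    rw [iot, Polynomial.coe_eval₂RingHom, Polynomial.eval₂_monomial, ← map_pow,
      MvPowerSeries.coeff_mul_C, MvPowerSeries.coeff_map, Polynomial.coeff_C_mul,
      Polynomial.coeff_X_pow, Polynomial.coeff_monomial]
    by_cases h1 : j = n
    · subst h1; simp
    · rw [if_neg h1, if_neg (Ne.symm h1), mul_zero, map_zero]

theorem iot_injective : Function.Injective (iot k σ) := by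
  rw [injective_iff_map_eq_zero]
  intro h hh
  ext j μ
  rw [← coeff_coeff_iot, hh]
  simp

theorem iot_aeval {κ : Type} (G : κ → Polynomial (MvPowerSeries σ k)) (E : MvPolynomial κ k) :
    iot k σ (aeval G E) = aeval (fun i => iot k σ (G i)) E := by
  induction E using MvPolynomial.induction_on with
  | C b =>
    rw [MvPolynomial.aeval_C, MvPolynomial.aeval_C, Polynomial.algebraMap_apply]
    rw [iot, Polynomial.coe_eval₂RingHom, Polynomial.eval₂_C]
    rw [MvPowerSeries.algebraMap_apply, MvPowerSeries.algebraMap_apply, MvPowerSeries.map_C]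
    rfl
  | add p q hp hq => rw [map_add, map_add, map_add, hp, hq]
  | mul_X p i hp => rw [map_mul, map_mul, map_mul, hp, aeval_X, aeval_X]

/-- The coefficients (of the powers of `X`) of a power series with polynomial coefficients. -/
noncomputable def unpack {κ : Type} {d : ℕ} (G : κ → MvPowerSeries σ (Polynomial k)) :
    Fin (d + 1) → κ → MvPowerSeries σ k :=
  fun j i μ => (MvPowerSeries.coeff μ (G i)).coeff (j : ℕ)

theorem coeff_unpack {κ : Type} {d : ℕ} (G : κ → MvPowerSeries σ (Polynomial k)) (j : Fin (d + 1))
    (i : κ) (μ : σ →₀ ℕ) :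
    MvPowerSeries.coeff μ (unpack G j i) = (MvPowerSeries.coeff μ (G i)).coeff (j : ℕ) := rfl

theorem iot_toPoly_unpack {κ : Type} {d : ℕ} (G : κ → MvPowerSeries σ (Polynomial k))
    (hG : ∀ i μ, (MvPowerSeries.coeff μ (G i)).natDegree ≤ d) (i : κ) :
    iot k σ (toPoly (unpack G : Fin (d + 1) → κ → MvPowerSeries σ k) i) = G i := by
  ext μ n
  rw [coeff_coeff_iot, coeff_toPoly]
  by_cases h : n < d + 1
  · rw [dif_pos h, coeff_unpack]
  · rw [dif_neg h, map_zero]
    exact (Polynomial.coeff_eq_zero_of_natDegree_lt (lt_of_le_of_lt (hG i μ) (by omega))).symm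

end series

end Pool.Agent.VF.D61
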