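import Pool.Agent.Lib_MP_1858fb_d.DeformA
import Pool.Agent.Lib_MP_1858fb_w.Formal
import Pool.Agent.Lib_MP_1858fb_w.Obs

/-! MP_1858fb_ag: formal deformation of a curve in `V` with given first order part and given
marks. -/

namespace Pool.Agent.VF.D61

open MvPolynomial

section

variable {k : Type} [Field k]

/-- the polynomials in `van V` vanish along the curve -/
theorem aeval_toPoly_eq_zero [Infinite k] {N d : ℕ} {V : Set (Fin (N + 1) → k)}
    {F0 : Fin (d + 1) → Fin (N + 1) → k} (hF0 : IsCurve V F0) {E : MvPolynomial (Fin (N + 1)) k}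
    (hE : E ∈ van V) : aeval (toPoly F0) E = 0 := by
  apply Polynomial.funext
  intro a
  rw [eval_aeval, Polynomial.eval_zero]
  have h1 : (fun i => (toPoly F0 i).eval a) = val F0 1 a := funext fun i => eval_toPoly F0 i a
  rw [h1]
  exact hE _ (hF0 1 a (Or.inl one_ne_zero))

/-- sections of the tangent bundle from their values -/
theorem isSec_of [Infinite k] {N d D : ℕ} {V : Set (Fin (N + 1) → k)}
    {F0 : Fin (d + 1) → Fin (N + 1) → k} {h : Fin (N + 1) → Polynomial k}
    (hd : ∀ i, (h i).natDegree ≤ D)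
    (ht : ∀ a : k, (fun i => (h i).eval a) ∈ Tan V (val F0 1 a)) :
    Obs.IsSec (toPoly F0) (van V) D h := by
  refine ⟨hd, fun E hE => ?_⟩
  apply Polynomial.funext
  intro a
  rw [Polynomial.eval_finsetSum, Polynomial.eval_zero]
  have h1 := ht a E hE
  rw [dif] at h1
  rw [← h1]
  refine Finset.sum_congr rfl fun i _ => ?_
  rw [Polynomial.eval_mul, Obs.dif, eval_aeval]
  have h2 : (fun i => (toPoly F0 i).eval a) = val F0 1 a := funext fun i => eval_toPoly F0 i a
  rw [h2]

theorem eval_dif_toPoly {N d : ℕ} (F0 : Fin (d + 1) → Fin (N + 1) → k)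
    (E : MvPolynomial (Fin (N + 1)) k) (i : Fin (N + 1)) (a : k) :
    (Obs.dif (toPoly F0) E i).eval a = aeval (val F0 1 a) (pderiv i E) := by
  rw [Obs.dif, eval_aeval]
  have h2 : (fun i => (toPoly F0 i).eval a) = val F0 1 a := funext fun i => eval_toPoly F0 i a
  rw [h2]

/-- **Formal deformation** with given first order part `g` and fixed values at the marks. -/
theorem exists_deformation [IsAlgClosed k] {N c d m : ℕ}
    {V : Set (Fin (N + 1) → k)} (hhom : ∀ E ∈ van V, ∀ n, homogeneousComponent n E ∈ van V)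
    {F0 : Fin (d + 1) → Fin (N + 1) → k} (hsm0 : SmoothAt c V (val F0 1 0)) (hF0 : IsCurve V F0)
    (cm : Fin m → k) (hspan : Span V F0 (m + 1))
    {σ : Type} [Fintype σ] (g : σ → Fin (N + 1) → Polynomial k)
    (hgd : ∀ s i, (g s i).natDegree ≤ d)
    (hgP : ∀ s i, (∏ l, (Polynomial.X - Polynomial.C (cm l))) ∣ g s i)
    (hg : ∀ s, ∀ a : k, (fun i => (g s i).eval a) ∈ Tan V (val F0 1 a)) :
    ∃ F : Fin (d + 1) → Fin (N + 1) → MvPowerSeries σ k,
      (∀ j i, MvPowerSeries.constantCoeff (F j i) = F0 j i) ∧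
      (∀ s j i, MvPowerSeries.coeff (Finsupp.single s 1) (F j i) = (g s i).coeff (j : ℕ)) ∧
      (∀ E ∈ van V, ∀ p q : MvPowerSeries σ k, aeval (val F p q) E = 0) ∧
      (∀ l i, val F 1 (MvPowerSeries.C (cm l)) i = MvPowerSeries.C (val F0 1 (cm l) i)) := by
  classical
  set P : Polynomial k := ∏ l, (Polynomial.X - Polynomial.C (cm l)) with hP
  have hPmon : P.Monic := Polynomial.monic_prod_of_monic _ _ fun l _ => Polynomial.monic_X_sub_C _
  have hPdeg : P.natDegree = m := by
    rw [hP, Polynomial.natDegree_prod_of_monic _ _ fun l _ => Polynomial.monic_X_sub_C _]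
    simp
  have hmd : m + 1 ≤ d := hspan.1
  have hFd : ∀ i, (toPoly F0 i).natDegree ≤ d := natDegree_toPoly_le F0
  have hFz : ∀ E ∈ van V, aeval (toPoly F0) E = 0 := fun E hE => aeval_toPoly_eq_zero hF0 hE
  have hloc : Obs.LocGen (toPoly F0) (van V) c 0 := by
    obtain ⟨E, H, hE, hli, hH, hgen⟩ := hsm0
    refine ⟨E, hE, ?_, fun G hG => ⟨H, fun h0 => hH ?_, hgen G hG⟩⟩
    · have : (fun j i => (Obs.dif (toPoly F0) (E j) i).eval 0) =
          fun (i : Fin c) (j : Fin (N + 1)) => aeval (val F0 1 0) (pderiv j (E i)) := by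
        funext j i
        exact eval_dif_toPoly F0 (E j) i 0
      rw [this]
      exact hli
    · have h1 := congrArg (Polynomial.eval 0) h0
      rw [eval_aeval, Polynomial.eval_zero] at h1
      have h2 : (fun i => (toPoly F0 i).eval 0) = val F0 1 0 :=
        funext fun i => eval_toPoly F0 i 0
      rwa [h2] at h1
  have hsec : ∀ a : k, ∀ x : Fin (N + 1) → k,
      (∀ E ∈ van V, ∑ i, (Obs.dif (toPoly F0) E i).eval a * x i = 0) →
      ∃ g, Obs.IsSec (toPoly F0) (van V) (d - m) g ∧ ∀ i, (g i).eval a = x i := by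
    intro a x hx
    have hxT : x ∈ Tan V (val F0 1 a) := by
      intro E hE
      rw [dif, ← hx E hE]
      exact Finset.sum_congr rfl fun i _ => by rw [eval_dif_toPoly]
    obtain ⟨G, hG, hGx⟩ := hspan.2 1 a (Or.inl one_ne_zero) x hxT
    refine ⟨toPoly G, isSec_of (fun i => (natDegree_toPoly_le G i).trans (by omega)) ?_, ?_⟩
    · intro b
      have h2 : (fun i => (toPoly G i).eval b) = val G 1 b := funext fun i => eval_toPoly G i b
      rw [h2]
      exact hG 1 b
    · intro i
      rw [eval_toPoly, hGx]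
  have hinf : ∀ x : Fin (N + 1) → k, (∀ E ∈ van V, ∀ e, E.IsHomogeneous e →
        ∑ i, (Obs.dif (toPoly F0) E i).coeff (d * (e - 1)) * x i = 0) →
      ∃ g, Obs.IsSec (toPoly F0) (van V) (d - m) g ∧ ∀ i, (g i).coeff (d - m) = x i := by
    intro x hx
    have hxT : x ∈ Tan V (val F0 0 1) := by
      intro E hE
      have hcomp : ∀ n, dif (homogeneousComponent n E) (val F0 0 1) x = 0 := by
        intro n
        have h1 := hx _ (hhom E hE n) n (homogeneousComponent_isHomogeneous n E)
        refine Eq.trans ?_ h1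
        refine Finset.sum_congr rfl fun i _ => ?_
        rw [Obs.dif, coeff_aeval_top hFd (homogeneousComponent_isHomogeneous n E).pderiv]
        have h2 : (fun i => (toPoly F0 i).coeff d) = val F0 0 1 := by
          funext i
          rw [val_zero_one, ← coeff_toPoly_fin F0 i (Fin.last d), Fin.val_last]
        rw [h2]
      have h3 : dif E (val F0 0 1) x =
          ∑ n ∈ Finset.range (E.totalDegree + 1),
            dif (homogeneousComponent n E) (val F0 0 1) x := by
        simp only [dif]
        rw [Finset.sum_comm]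
        refine Finset.sum_congr rfl fun i _ => ?_
        rw [← Finset.sum_mul, ← map_sum, ← map_sum, sum_homogeneousComponent]
      rw [h3]
      exact Finset.sum_eq_zero fun n _ => hcomp n
    obtain ⟨G, hG, hGx⟩ := hspan.2 0 1 (Or.inr one_ne_zero) x hxT
    refine ⟨fun i => Polynomial.X * toPoly G i, isSec_of (fun i => ?_) ?_, ?_⟩
    · refine Polynomial.natDegree_mul_le.trans ?_
      have h1 := natDegree_toPoly_le G i
      have h2 : (Polynomial.X : Polynomial k).natDegree ≤ 1 := Polynomial.natDegree_X_le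
      omega
    · intro b
      have h2 : (fun i => (Polynomial.X * toPoly G i).eval b) = b • val G 1 b := by
        funext i
        rw [Polynomial.eval_mul, Polynomial.eval_X, eval_toPoly, Pi.smul_apply, smul_eq_mul]
      rw [h2]
      exact Submodule.smul_mem _ _ (hG 1 b)
    · intro i
      have h1 : d - m = (d - (m + 1)) + 1 := by omega
      rw [h1, Polynomial.coeff_X_mul]
      have h2 := coeff_toPoly_fin G i (Fin.last _)
      rw [Fin.val_last] at h2
      rw [h2, ← val_zero_one G, hGx]
  obtain ⟨G, hGd, hGP, hG0, hG1, hGE⟩ := exists_formal (σ := σ) (van V) d P (toPoly F0) g hFd hgd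
    hgP hFz (fun s => (isSec_of (D := d) (hgd s) (hg s)).2) (fun o ho1 ho2 ho3 ho4 => by
      obtain ⟨δ, h1, h2, h3⟩ := Obs.obs_div (D := d - m) hFd hFz hloc hsec hinf
        (Q := P) hPmon.ne_zero (by rw [hPdeg]; omega) (o := o)
        ⟨fun E hE E' hE' => ho2 E hE E' hE', fun G E hE => ho1 E hE G⟩ ho3 ho4
      exact ⟨δ, h2, h1, h3⟩)
  have hpoly : ∀ i μ, MvPowerSeries.coeff μ (G i) =
      toPoly (fun (j : Fin (d + 1)) i' => (MvPowerSeries.coeff μ (G i')).coeff (j : ℕ)) i := by
    intro i μ
    ext n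
    rw [coeff_toPoly]
    by_cases h : n < d + 1
    · rw [dif_pos h]
    · rw [dif_neg h]
      exact Polynomial.coeff_eq_zero_of_natDegree_lt (lt_of_le_of_lt (hGd i μ) (by omega))
  refine ⟨unpack G, fun j i => ?_, fun s j i => ?_, fun E hE p q => ?_, fun l i => ?_⟩
  · rw [← MvPowerSeries.coeff_zero_eq_constantCoeff_apply, coeff_unpack,
      MvPowerSeries.coeff_zero_eq_constantCoeff_apply, hG0, coeff_toPoly_fin]
  · rw [coeff_unpack, hG1]
  · -- homogeneous components
    have hcomp : ∀ n, aeval (val (unpack G : Fin (d + 1) → Fin (N + 1) → MvPowerSeries σ k) p q)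
        (homogeneousComponent n E) = 0 := by
      intro n
      apply aeval_val_eq_zero _ (homogeneousComponent_isHomogeneous n E)
      apply iot_injective
      rw [iot_aeval, map_zero]
      have h1 : (fun i => iot k σ (toPoly
          (unpack G : Fin (d + 1) → Fin (N + 1) → MvPowerSeries σ k) i)) = G :=
        funext fun i => iot_toPoly_unpack G hGd i
      rw [h1]
      exact hGE _ (hhom E hE n)
    have h2 := congrArg (aeval (val (unpack G : Fin (d + 1) → Fin (N + 1) → MvPowerSeries σ k) p q))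
      (sum_homogeneousComponent (φ := E))
    rw [map_sum] at h2
    rw [← h2]
    exact Finset.sum_eq_zero fun n _ => hcomp n
  · ext μ
    rw [val, map_sum, MvPowerSeries.coeff_C]
    have h1 : ∑ j : Fin (d + 1), MvPowerSeries.coeff μ (unpack G j i *
        (1 ^ (d - (j : ℕ)) * (MvPowerSeries.C (cm l)) ^ (j : ℕ))) =
        (MvPowerSeries.coeff μ (G i)).eval (cm l) := by
      rw [hpoly i μ, eval_toPoly, val]
      refine Finset.sum_congr rfl fun j _ => ?_
      rw [one_pow, one_pow, one_mul, one_mul, ← map_pow, MvPowerSeries.coeff_mul_C, coeff_unpack]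
    rw [h1]
    by_cases hμ : μ = 0
    · subst hμ
      rw [if_pos rfl, MvPowerSeries.coeff_zero_eq_constantCoeff_apply, hG0, eval_toPoly]
    · rw [if_neg hμ]
      have h2 : P.eval (cm l) = 0 := by
        rw [hP, Polynomial.eval_prod]
        exact Finset.prod_eq_zero (Finset.mem_univ l) (by simp)
      exact Polynomial.eval_eq_zero_of_dvd_of_eval_eq_zero (hGP i μ hμ) h2

end

end Pool.Agent.VF.D61
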