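import Pool.Agent.Lib_MP_1858fb_d.DeformB
import Pool.Agent.Lib_MP_1858fb_w.Inj2
import Pool.Agent.Lib_MP_1858fb_w.Defs2

/-! MP_1858fb_ag: sections with given values at the two ends, injectivity for a formal
parametrisation whose tangent vectors form a basis of the tangent space. -/

namespace Pool.Agent.VF.D61

open MvPolynomial

section

variable {k : Type} [Field k]

/-- a section that is divisible by `∏ (X - cm l)`, with a given value at `(0 : 1)` and (if `0` is
not a mark) `0` at `(1 : 0)` -/
theorem exists_section_stop {N d m : ℕ} {V : Set (Fin (N + 1) → k)}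
    {F0 : Fin (d + 1) → Fin (N + 1) → k} (cm : Fin m → k) (hspan : Span V F0 (m + 1))
    {w : Fin (N + 1) → k} (hw : w ∈ Tan V (val F0 0 1)) :
    ∃ g : Fin (N + 1) → Polynomial k, (∀ i, (g i).natDegree ≤ d) ∧
      (∀ i, (∏ l, (Polynomial.X - Polynomial.C (cm l))) ∣ g i) ∧
      (∀ a : k, (fun i => (g i).eval a) ∈ Tan V (val F0 1 a)) ∧
      (∀ i, (g i).coeff 0 = 0) ∧ ∀ i, (g i).coeff d = w i := by
  classical
  set P : Polynomial k := ∏ l, (Polynomial.X - Polynomial.C (cm l)) with hP
  have hPmon : P.Monic := Polynomial.monic_prod_of_monic _ _ fun l _ => Polynomial.monic_X_sub_C _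
  have hPdeg : P.natDegree = m := by
    rw [hP, Polynomial.natDegree_prod_of_monic _ _ fun l _ => Polynomial.monic_X_sub_C _]
    simp
  have hmd : m + 1 ≤ d := hspan.1
  obtain ⟨G, hG, hGw⟩ := hspan.2 0 1 (Or.inr one_ne_zero) w hw
  refine ⟨fun i => Polynomial.X * (P * toPoly G i), fun i => ?_, fun i => ?_, fun a => ?_,
    fun i => ?_, fun i => ?_⟩
  · have h1 := natDegree_toPoly_le G i
    have h2 : (P * toPoly G i).natDegree ≤ m + (d - (m + 1)) :=
      Polynomial.natDegree_mul_le.trans (by omega)
    refine Polynomial.natDegree_mul_le.trans ?_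
    have h3 : (Polynomial.X : Polynomial k).natDegree ≤ 1 := Polynomial.natDegree_X_le
    omega
  · exact Dvd.dvd.mul_left (dvd_mul_right _ _) _
  · have h2 : (fun i => (Polynomial.X * (P * toPoly G i)).eval a) =
        (a * P.eval a) • val G 1 a := by
      funext i
      rw [Polynomial.eval_mul, Polynomial.eval_mul, Polynomial.eval_X, eval_toPoly,
        Pi.smul_apply, smul_eq_mul, mul_assoc]
    rw [h2]
    exact Submodule.smul_mem _ _ (hG 1 a)
  · exact Polynomial.coeff_X_mul_zero _
  · have h1 : d = (m + (d - (m + 1))) + 1 := by omega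
    refine (congrArg (fun n => (Polynomial.X * (P * toPoly G i)).coeff n) h1).trans ?_
    change (Polynomial.X * (P * toPoly G i)).coeff (m + (d - (m + 1)) + 1) = w i
    rw [Polynomial.coeff_X_mul,
      Polynomial.coeff_mul_add_eq_of_natDegree_le hPdeg.le (natDegree_toPoly_le G i)]
    have h3 : P.coeff m = 1 := by
      rw [← hPdeg]; exact hPmon
    have h2 := coeff_toPoly_fin G i (Fin.last _)
    rw [Fin.val_last] at h2
    rw [h3, one_mul, h2, ← val_zero_one G, hGw]

/-- a section that is divisible by `∏ (X - cm l)`, with a given value at `(1 : 0)` and `0` at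
`(0 : 1)` -/
theorem exists_section_start {N d m : ℕ} {V : Set (Fin (N + 1) → k)}
    {F0 : Fin (d + 1) → Fin (N + 1) → k} (cm : Fin m → k) (hcm : ∀ l, cm l ≠ 0)
    (hspan : Span V F0 (m + 1)) {w : Fin (N + 1) → k} (hw : w ∈ Tan V (val F0 1 0)) :
    ∃ g : Fin (N + 1) → Polynomial k, (∀ i, (g i).natDegree ≤ d) ∧
      (∀ i, (∏ l, (Polynomial.X - Polynomial.C (cm l))) ∣ g i) ∧
      (∀ a : k, (fun i => (g i).eval a) ∈ Tan V (val F0 1 a)) ∧
      (∀ i, (g i).coeff 0 = w i) ∧ ∀ i, (g i).coeff d = 0 := by
  classical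
  set P : Polynomial k := ∏ l, (Polynomial.X - Polynomial.C (cm l)) with hP
  have hPdeg : P.natDegree = m := by
    rw [hP, Polynomial.natDegree_prod_of_monic _ _ fun l _ => Polynomial.monic_X_sub_C _]
    simp
  have hmd : m + 1 ≤ d := hspan.1
  have hP0 : P.eval 0 ≠ 0 := by
    rw [hP, Polynomial.eval_prod]
    refine Finset.prod_ne_zero_iff.mpr fun l _ => ?_
    simpa using hcm l
  obtain ⟨G, hG, hGw⟩ := hspan.2 1 0 (Or.inl one_ne_zero) w hw
  have hdeg : ∀ i, (Polynomial.C (P.eval 0)⁻¹ * (P * toPoly G i)).natDegree ≤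
      m + (d - (m + 1)) := by
    intro i
    have h1 := natDegree_toPoly_le G i
    have h2 : (P * toPoly G i).natDegree ≤ m + (d - (m + 1)) :=
      Polynomial.natDegree_mul_le.trans (by omega)
    exact (Polynomial.natDegree_C_mul_le _ _).trans h2
  refine ⟨fun i => Polynomial.C (P.eval 0)⁻¹ * (P * toPoly G i), fun i => ?_, fun i => ?_,
    fun a => ?_, fun i => ?_, fun i => ?_⟩
  · exact (hdeg i).trans (by omega)
  · exact Dvd.dvd.mul_left (dvd_mul_right _ _) _
  · have h2 : (fun i => (Polynomial.C (P.eval 0)⁻¹ * (P * toPoly G i)).eval a) =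
        ((P.eval 0)⁻¹ * P.eval a) • val G 1 a := by
      funext i
      rw [Polynomial.eval_mul, Polynomial.eval_mul, Polynomial.eval_C, eval_toPoly,
        Pi.smul_apply, smul_eq_mul, mul_assoc]
    rw [h2]
    exact Submodule.smul_mem _ _ (hG 1 a)
  · rw [Polynomial.coeff_zero_eq_eval_zero, Polynomial.eval_mul, Polynomial.eval_mul,
      Polynomial.eval_C, eval_toPoly, hGw, ← mul_assoc, inv_mul_cancel₀ hP0, one_mul]
  · exact Polynomial.coeff_eq_zero_of_natDegree_lt (lt_of_le_of_lt (hdeg i) (by omega))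

theorem van_isPrime {σ : Type} {V : Set (σ → k)} (hirr : Irred V) : (van V).IsPrime := by
  constructor
  · intro htop
    obtain ⟨x, hx⟩ := hirr.1
    have h1 : (1 : MvPolynomial σ k) ∈ van V := by rw [htop]; trivial
    have h2 := h1 x hx
    rw [map_one] at h2
    exact one_ne_zero h2
  · intro a b hab
    exact hirr.2 a b hab

/-- **Injectivity.** A formal parametrisation of `V` at `v` whose tangent vectors form a basis of
the tangent space kills only the polynomials that vanish on `V`. -/
theorem mem_van_of_formal {σ : Type} [Fintype σ] {V : Set (σ → k)} (hirr : Irred V) {v : σ → k}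
    (hv : v ∈ V) {r : ℕ} (b : Module.Basis (Fin r) k (Tan V v))
    (Ψ : σ → MvPowerSeries (Fin r) k)
    (h0 : ∀ l, MvPowerSeries.constantCoeff (Ψ l) = v l)
    (h1 : ∀ s l, MvPowerSeries.coeff (Finsupp.single s 1) (Ψ l) = (b s : σ → k) l)
    (hI : ∀ f ∈ van V, aeval Ψ f = 0) {f : MvPolynomial σ k} (hf : aeval Ψ f = 0) :
    f ∈ van V := by
  classical
  haveI := van_isPrime hirr
  -- functionals dual to the basis
  have hex : ∀ s : Fin r, ∃ L : (σ → k) →ₗ[k] k, L.comp (Tan V v).subtype = b.coord s := fun s =>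
    LinearMap.exists_extend (b.coord s)
  choose L hL using hex
  have hLb : ∀ s t, L s (b t : σ → k) = if t = s then 1 else 0 := by
    intro s t
    have h2 := LinearMap.congr_fun (hL s) (b t)
    rw [LinearMap.comp_apply, Submodule.subtype_apply, Module.Basis.coord_apply,
      Module.Basis.repr_self] at h2
    rw [h2, Finsupp.single_apply]
  have hLw : ∀ s (w : σ → k), L s w = ∑ l, L s (Pi.single l 1) * w l := by
    intro s w
    conv_lhs => rw [← Finset.univ_sum_single w]
    rw [map_sum]
    refine Finset.sum_congr rfl fun l _ => ?_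
    have h2 : (Pi.single l (w l) : σ → k) = w l • (Pi.single l 1 : σ → k) := by
      rw [← Pi.single_smul, smul_eq_mul, mul_one]
    rw [h2, map_smul, smul_eq_mul, mul_comm]
  let x : Fin r → MvPolynomial σ k := fun s => ∑ l, C (L s (Pi.single l 1)) * (X l - C (v l))
  have hxv : ∀ s, eval v (x s) = 0 := by
    intro s
    simp [x]
  have hgrad : ∀ s, grad v (x s) = fun l => L s (Pi.single l 1) := by
    intro s
    funext l
    change eval v (pderiv l (x s)) = _
    simp only [x, map_sum, pderiv_C_mul, map_sub, pderiv_C, sub_zero, pderiv_X]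
    rw [Finset.sum_eq_single l]
    · simp
    · intro j _ hj
      rw [Pi.single_eq_of_ne hj, mul_zero, map_zero]
    · intro h; exact absurd (Finset.mem_univ _) h
  refine mem_of_vanish_formal (van V) v (fun g hg => ?_) x hxv
    (gen_of_grad (van V) v (fun g hg => ?_) x hxv ?_) Ψ h0 ?_ hI f hf
  · exact hg v hv
  · exact hg v hv
  · -- the gradients span
    by_contra hne
    obtain ⟨φ, hφ0, hφ⟩ := Submodule.exists_le_ker_of_lt_top _ (lt_top_iff_ne_top.mpr hne)
    have hφw : ∀ u : σ → k, φ u = ∑ l, u l * φ (Pi.single l 1) := by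
      intro u
      conv_lhs => rw [← Finset.univ_sum_single u]
      rw [map_sum]
      refine Finset.sum_congr rfl fun l _ => ?_
      have h2 : (Pi.single l (u l) : σ → k) = u l • (Pi.single l 1 : σ → k) := by
        rw [← Pi.single_smul, smul_eq_mul, mul_one]
      rw [h2, map_smul, smul_eq_mul]
    let w : σ → k := fun l => φ (Pi.single l 1)
    have hwT : w ∈ Tan V v := by
      intro E hE
      have h2 : φ (grad v E) = 0 :=
        hφ (Submodule.subset_span (Or.inr ⟨E, hE, rfl⟩))
      rw [hφw] at h2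
      exact h2
    have hLw0 : ∀ s, L s w = 0 := by
      intro s
      have h2 : φ (grad v (x s)) = 0 :=
        hφ (Submodule.subset_span (Or.inl ⟨s, rfl⟩))
      rw [hφw, hgrad] at h2
      rw [hLw]
      exact h2
    have hw0 : (⟨w, hwT⟩ : Tan V v) = 0 := by
      apply b.ext_elem
      intro s
      have h2 := LinearMap.congr_fun (hL s) ⟨w, hwT⟩
      rw [LinearMap.comp_apply, Submodule.subtype_apply, Module.Basis.coord_apply, hLw0] at h2
      rw [← h2, map_zero, Finsupp.zero_apply]
    apply hφ0
    ext u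
    rw [LinearMap.comp_apply]
    have h3 : w = 0 := congrArg Subtype.val hw0
    have h4 : φ (Pi.single u 1) = 0 := congrFun h3 u
    simpa using h4
  · intro s μ hμ
    obtain ⟨t, rfl⟩ : ∃ t, μ = Finsupp.single t 1 := by
      exact (Finsupp.sum_eq_one_iff μ).mp hμ
    rw [show aeval Ψ (x s) = ∑ l, (L s (Pi.single l 1)) • (Ψ l - MvPowerSeries.C (v l)) by
      simp only [x, map_sum, map_mul, map_sub, aeval_X, algHom_C]
      refine Finset.sum_congr rfl fun l _ => ?_
      rw [Algebra.smul_def]
      rfl]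
    rw [map_sum, MvPowerSeries.coeff_X]
    have h3 : ∀ l, MvPowerSeries.coeff (Finsupp.single t 1)
        ((L s (Pi.single l 1)) • (Ψ l - MvPowerSeries.C (v l))) =
        L s (Pi.single l 1) * (b t : σ → k) l := by
      intro l
      rw [map_smul, map_sub, h1, MvPowerSeries.coeff_C, if_neg, sub_zero, smul_eq_mul]
      rw [Finsupp.single_eq_zero]
      exact one_ne_zero
    rw [Finset.sum_congr rfl fun l _ => h3 l, ← hLw, hLb]
    by_cases h : t = s
    · subst h; simp
    · rw [if_neg h, if_neg]
      intro h5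
      exact h (Finsupp.single_left_injective one_ne_zero h5)

end

end Pool.Agent.VF.D61
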