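import Pool.Agent.Lib_MP_1858fb_d.DeformC
import Pool.Agent.Lib_MP_1858fb_w.Van1

/-! MP_1858fb_ag: the generic deformation with one free end. -/

namespace Pool.Agent.VF.D61

open MvPolynomial

section

variable {k : Type} [Field k]

/-- The generic deformation with one free end: the start (a mark `0` is allowed) and the marks
are fixed, the end is a formal generic point of `V`; with the sections given by the
derivatives. -/
theorem exists_generic_deformation_one [IsAlgClosed k] {N c d m : ℕ}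
    {V : Set (Fin (N + 1) → k)} (hV : LocClosed V) (hirr : Irred V)
    (hsm : ∀ x ∈ V, SmoothAt c V x) {F0 : Fin (d + 1) → Fin (N + 1) → k} (hF0 : IsCurve V F0)
    (cm : Fin m → k) (hspan : Span V F0 (m + 1)) :
    ∃ (r : ℕ) (b : Module.Basis (Fin r) k (Tan V (val F0 0 1)))
      (F : Fin (d + 1) → Fin (N + 1) → MvPowerSeries (Fin r) k),
      (∀ j i, MvPowerSeries.constantCoeff (F j i) = F0 j i) ∧
      (∀ s i, MvPowerSeries.coeff (Finsupp.single s 1) (F 0 i) = 0) ∧
      (∀ s i, MvPowerSeries.coeff (Finsupp.single s 1) (F (Fin.last d) i) =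
        (b s : Fin (N + 1) → k) i) ∧
      (∀ E ∈ van V, ∀ p q : MvPowerSeries (Fin r) k, aeval (val F p q) E = 0) ∧
      (∀ l i, val F 1 (MvPowerSeries.C (cm l)) i = MvPowerSeries.C (val F0 1 (cm l) i)) ∧
      ∀ g : MvPolynomial (Fin (N + 1)) k, aeval (F (Fin.last d)) g = 0 → g ∈ van V := by
  classical
  let b := Module.finBasis k (Tan V (val F0 0 1))
  have hex : ∀ s, ∃ g : Fin (N + 1) → Polynomial k, (∀ i, (g i).natDegree ≤ d) ∧
      (∀ i, (∏ l, (Polynomial.X - Polynomial.C (cm l))) ∣ g i) ∧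
      (∀ a : k, (fun i => (g i).eval a) ∈ Tan V (val F0 1 a)) ∧
      (∀ i, (g i).coeff 0 = 0) ∧ ∀ i, (g i).coeff d = (b s : Fin (N + 1) → k) i := fun s =>
    exists_section_stop cm hspan (b s).2
  choose g hgd hgP hgT hg0 hg1 using hex
  obtain ⟨F, hF0', hF1, hFE, hFm⟩ := exists_deformation
    (fun E hE n => van_homogeneousComponent hV hE n)
    (hsm _ (hF0 1 0 (Or.inl one_ne_zero))) hF0 cm hspan g hgd hgP hgT
  have h1 : ∀ s i, MvPowerSeries.coeff (Finsupp.single s 1) (F (Fin.last d) i) =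
      (b s : Fin (N + 1) → k) i := by
    intro s i
    rw [hF1, Fin.val_last, hg1]
  refine ⟨_, b, F, hF0', fun s i => ?_, h1, hFE, hFm, fun f hf => ?_⟩
  · rw [hF1, Fin.val_zero, hg0]
  · refine mem_van_of_formal hirr (hF0 0 1 (Or.inr one_ne_zero)) b (F (Fin.last d)) (fun l => ?_)
      h1 (fun E hE => ?_) hf
    · rw [hF0', val_zero_one]
    · have h2 := hFE E hE 0 1
      rwa [show val F 0 1 = F (Fin.last d) from funext fun i => val_zero_one F i] at h2

end

end Pool.Agent.VF.D61
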